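import Pool.Agent.U517.NR.Repel

/-!
# A Newhouse domain without pluripotent elements (MP_f9d495_an, Q1: disproof)

For every `r ≥ 1` there are a flat torus `T = V / Lat b` and a nonempty `C^r`-open set `N` of `C^r`
diffeomorphisms of `T` such that every `f ∈ N` has a hyperbolic set with a homoclinic tangency (`N`
is a Newhouse domain), and for every `f ∈ N` and every hyperbolic set `Λ` of `f` with a homoclinic
tangency

* `f` is not strongly pluripotent for `Λ`, not even pluripotent;
* there are a point `x ∈ Λ` and `ε, δ, c₀ > 0` such that for all `g` which are `ε`-close to `f`, all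
  points `x'` whose `g`-orbit `δ`-shadows the `f`-orbit of `x` (the continuation `x_g` is one), and
  Lebesgue almost every `y`, the empirical measures of `y` and `x'` for `g` are at a Wasserstein
  distance of at least `c₀` at all large times.

The diffeomorphisms are close to a modification of a linear Anosov diffeomorphism of the torus near
its fixed point `0`: the fixed point becomes a saddle which expands the area, between two sources,
and outside of a box there is a hyperbolic attractor whose stable foliation is tangent to the
unstable manifold of the saddle, which is folded by a half-turn in a small disc.  Each hyperbolic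
set with a homoclinic tangency of a diffeomorphism close to the model contains a point along whose
orbit the area is expanded exponentially.  The Newhouse domain and the first part are in the library
`Pool/Agent/W5h40/NH`; the second part (by Borel-Cantelli for the Jacobians) is new.
-/

open Set Filter Topology MeasureTheory

namespace Pool.Agent.Results.MP_f9d495_an.NewhouseDomainRepulsion

open Pool.Agent.W5h40.NH

theorem result (r : ℕ) (hr : 1 ≤ r) :
    ∃ (b : Module.Basis (Fin 2) ℝ V) (N : Set (TorusDiffeo b r)), IsNewhouseDomain N ∧
      ∀ f ∈ N, ∀ Λ : Set V, IsHyperbolicSet f Λ → HasTangency f Λ →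
        (¬ StronglyPluripotent f Λ ∧ ¬ Pluripotent f Λ) ∧
        ∃ x ∈ Λ, ∃ ε > 0, ∃ δ > 0, ∃ c₀ > 0, ∀ g : TorusDiffeo b r, CrClose ε f g → ∀ x' : V,
          (∀ n : ℕ, dT b (g.toFun^[n] x') (f.toFun^[n] x) ≤ δ) →
          ∀ᵐ y : V, ∀ᶠ n : ℕ in atTop, c₀ ≤ dW g n y x' := by
  refine ⟨b0, ND r, ND_newhouse hr, fun f hf Λ hΛ hT => ⟨?_, ?_⟩⟩
  · have h := ND_not_pluripotent hr hf hΛ hT
    exact ⟨fun h1 => h h1.pluripotent, h⟩
  · obtain ⟨x, hx, hn⟩ := ND_expanding hr hf hΛ hT
    exact ⟨x, hx, Pool.Agent.U517.NR.repulsion f hr (Real.log_pos one_lt_two)
      (Eventually.of_forall hn)⟩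

end Pool.Agent.Results.MP_f9d495_an.NewhouseDomainRepulsion
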